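import Mathlib
import Pool.Agent.Helper634.Matvec.Statement
import Pool.Agent.Helper634.Matvec.MainIneq
import Pool.Agent.Helper561.Matvec.Final
import Pool.Agent.Helper964.Matvec.Assembly

/-!
# MP_4289a5_an, Q1: the answer is no

There is no randomised adaptive matrix-vector product algorithm, in the model fixed in the problem
file, that finds an acceptable eigenvalue approximation with probability at least `2/3` within
`p (log (n κ_V), 1/ε)` products, for any fixed polynomial `p`.

The model (`MatVecAlg`, `Success`, `kappaV`, `DiagonalizedBy`, `Acceptable`, `topModulus`,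
`StopsAfter`, `answers`, `opNorm2`) is defined in `Pool/Agent/Helper634/Matvec/Statement.lean`.
-/

namespace Pool.Agent.Results.MP_4289a5_an.NoGapFreeAlgorithm

open MeasureTheory
open Pool.Agent.Helper634.Matvec

universe u

/-- **Negative answer to Q1.**  For every polynomial `p` and every choice, for all `n` and `ε`, of a
randomised adaptive matrix-vector product algorithm, some diagonalizable `A` of some size `n ≥ 1`
and some `ε ∈ (0,1)` have: the probability that the algorithm stops after at most
`p (log (n κ_V(A)), 1/ε)` products and returns an acceptable number is less than `2/3`. -/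
theorem result :
    ¬ ∃ (p : MvPolynomial (Fin 2) ℝ) (alg : (n : ℕ) → (ε : ℝ) → MatVecAlg.{u} n),
      ∀ n : ℕ, 1 ≤ n → ∀ ε : ℝ, 0 < ε → ε < 1 →
        ∀ A : Matrix (Fin n) (Fin n) ℂ, (∃ V, DiagonalizedBy A V) →
          2 / 3 ≤ @Measure.real _ (alg n ε).mΩ (alg n ε).P
            (Success (alg n ε) A ε
              (MvPolynomial.eval ![Real.log (n * kappaV A), 1 / ε] p)) :=
  Pool.Agent.Helper964.Matvec.target_of_main_ineq fun T hT =>
    mainIneq_of_gaussian T (Pool.Agent.Helper561.Matvec.gaussian_piece T hT) 

end Pool.Agent.Results.MP_4289a5_an.NoGapFreeAlgorithm
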